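import Pool.Agent.Run7.h441.JM.Stm

/-!
Pieces COP and PRD of the project of helper441 on MP_e26d5c_nt.
-/

set_option autoImplicit false

open Run7.h441.JM

namespace Run7.h173.JM

lemma PQ_fst_succ (k : ℤ) (n : ℕ) :
    (PQ k (n + 1)).1 = k * ((PQ k n).1 ^ 2 + (PQ k n).2 ^ 2) := rfl

lemma PQ_snd_succ (k : ℤ) (n : ℕ) : (PQ k (n + 1)).2 = (PQ k n).1 * (PQ k n).2 := rfl

lemma not_both {k : ℤ} {q : ℕ} (hq : q.Prime) (hqk : ¬ ((q : ℤ) ∣ 2 * k)) (m : ℕ) :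
    ¬ ((q : ℤ) ∣ (PQ k m).1 ∧ (q : ℤ) ∣ (PQ k m).2) := by
  have hp : Prime (q : ℤ) := Nat.prime_iff_prime_int.mp hq
  induction m with
  | zero =>
    rintro ⟨h, -⟩
    exact hp.not_isUnit (isUnit_of_dvd_one h)
  | succ m ih =>
    rintro ⟨h1, h2⟩
    rw [PQ_fst_succ] at h1
    rw [PQ_snd_succ] at h2
    apply ih
    have hD : (q : ℤ) ∣ (PQ k m).1 ^ 2 + (PQ k m).2 ^ 2 := by
      rcases hp.dvd_or_dvd h1 with h | h
      · exact absurd (Dvd.dvd.mul_left h 2) hqk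
      · exact h
    rcases hp.dvd_or_dvd h2 with h | h
    · refine ⟨h, ?_⟩
      have : (q : ℤ) ∣ (PQ k m).2 ^ 2 := by
        have h3 : (q : ℤ) ∣ (PQ k m).1 ^ 2 := Dvd.dvd.pow h (by norm_num)
        exact (dvd_add_right h3).mp hD
      exact hp.dvd_of_dvd_pow this
    · refine ⟨?_, h⟩
      have : (q : ℤ) ∣ (PQ k m).1 ^ 2 := by
        have h3 : (q : ℤ) ∣ (PQ k m).2 ^ 2 := Dvd.dvd.pow h (by norm_num)
        exact (dvd_add_left h3).mp hD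
      exact hp.dvd_of_dvd_pow this

/-- exactly one of `P_m`, `Q_m` is divisible by `q` -/
def One (k : ℤ) (q : ℕ) (m : ℕ) : Prop :=
  ((q : ℤ) ∣ (PQ k m).1 ∧ ¬ (q : ℤ) ∣ (PQ k m).2) ∨ (¬ (q : ℤ) ∣ (PQ k m).1 ∧ (q : ℤ) ∣ (PQ k m).2)

lemma One.not_dvd {k : ℤ} {q : ℕ} (hq : q.Prime) {m : ℕ} (h : One k q m) : ¬ (q : ℤ) ∣ D k m := by
  have hp : Prime (q : ℤ) := Nat.prime_iff_prime_int.mp hq
  intro hD
  unfold D at hD
  rcases h with ⟨h1, h2⟩ | ⟨h1, h2⟩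
  · have h3 : (q : ℤ) ∣ (PQ k m).1 ^ 2 := Dvd.dvd.pow h1 (by norm_num)
    exact h2 (hp.dvd_of_dvd_pow ((dvd_add_right h3).mp hD))
  · have h3 : (q : ℤ) ∣ (PQ k m).2 ^ 2 := Dvd.dvd.pow h2 (by norm_num)
    exact h1 (hp.dvd_of_dvd_pow ((dvd_add_left h3).mp hD))

lemma One.succ {k : ℤ} {q : ℕ} (hq : q.Prime) (hqk : ¬ ((q : ℤ) ∣ 2 * k)) {m : ℕ}
    (h : One k q m) : One k q (m + 1) := by
  have hp : Prime (q : ℤ) := Nat.prime_iff_prime_int.mp hq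
  right
  constructor
  · rw [PQ_fst_succ]
    intro h1
    rcases hp.dvd_or_dvd h1 with h2 | h2
    · exact hqk (Dvd.dvd.mul_left h2 2)
    · exact h.not_dvd hq h2
  · rw [PQ_snd_succ]
    rcases h with ⟨h1, -⟩ | ⟨-, h2⟩
    · exact Dvd.dvd.mul_right h1 _
    · exact Dvd.dvd.mul_left h2 _

theorem t_COP : S_COP := by
  intro k _ q hq hqk i j _ hij hi
  have hp : Prime (q : ℤ) := Nat.prime_iff_prime_int.mp hq
  have h0 : One k q (i + 1) := by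
    left
    have h1 : (q : ℤ) ∣ (PQ k (i + 1)).1 := by
      rw [PQ_fst_succ]
      exact Dvd.dvd.mul_left hi _
    exact ⟨h1, fun h2 => not_both hq hqk (i + 1) ⟨h1, h2⟩⟩
  have h1 : ∀ m, One k q (i + 1 + m) := by
    intro m
    induction m with
    | zero => exact h0
    | succ m ih => exact ih.succ hq hqk
  obtain ⟨m, rfl⟩ : ∃ m, j = i + 1 + m := ⟨j - (i + 1), by omega⟩
  exact (h1 m).not_dvd hq

lemma PQ_ne (k : ℤ) (hk : k ≠ 0) (m : ℕ) : (PQ k m).1 ≠ 0 ∧ (PQ k m).2 ≠ 0 := by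
  induction m with
  | zero => exact ⟨one_ne_zero, one_ne_zero⟩
  | succ m ih =>
    rw [PQ_fst_succ, PQ_snd_succ]
    refine ⟨mul_ne_zero hk ?_, mul_ne_zero ih.1 ih.2⟩
    have h1 : 0 < (PQ k m).1 ^ 2 := by have := ih.1; positivity
    have h2 : 0 < (PQ k m).2 ^ 2 := by have := ih.2; positivity
    omega

lemma D_pos (k : ℤ) (hk : k ≠ 0) (m : ℕ) : 0 < D k m := by
  have h1 : 0 < (PQ k m).1 ^ 2 := by have := (PQ_ne k hk m).1; positivity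
  have h2 : 0 < (PQ k m).2 ^ 2 := by have := (PQ_ne k hk m).2; positivity
  unfold D
  omega

/-- the induction statement -/
def A (k : ℤ) (n : ℕ) : Prop :=
  ∃ Y : Finset Ω, (∀ y : Ω, y ∈ Y ↔ Lev k n y) ∧ Y.card = 2 ^ n ∧
    ∀ m : ℕ, (k : Ω) ^ (2 ^ (n + 1) - 2) *
      ∏ v ∈ Y, (((PQ k m).2 : Ω) ^ 2 * v ^ 2 + ((PQ k m).1 : Ω) ^ 2) = ((D k (m + n) : ℤ) : Ω)

lemma prod_one {k : ℤ} {n : ℕ} {Y : Finset Ω}
    (h : ∀ m : ℕ, (k : Ω) ^ (2 ^ (n + 1) - 2) *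
      ∏ v ∈ Y, (((PQ k m).2 : Ω) ^ 2 * v ^ 2 + ((PQ k m).1 : Ω) ^ 2) = ((D k (m + n) : ℤ) : Ω)) :
    (k : Ω) ^ (2 ^ (n + 1) - 2) * ∏ v ∈ Y, (v ^ 2 + 4 * (k : Ω) ^ 2) =
      ((D k (n + 1) : ℤ) : Ω) := by
  have h1 := h 1
  rw [show 1 + n = n + 1 by ring] at h1
  rw [← h1]
  congr 1
  apply Finset.prod_congr rfl
  intro v _
  have e1 : (PQ k 1).1 = 2 * k := by
    rw [PQ_fst_succ]; simp [PQ]; ring
  have e2 : (PQ k 1).2 = 1 := by
    rw [PQ_snd_succ]; simp [PQ]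
  rw [e1, e2]
  push_cast
  ring

lemma ne_of_prod {k : ℤ} (hk : k ≠ 0) {n : ℕ} {Y : Finset Ω}
    (h : ∀ m : ℕ, (k : Ω) ^ (2 ^ (n + 1) - 2) *
      ∏ v ∈ Y, (((PQ k m).2 : Ω) ^ 2 * v ^ 2 + ((PQ k m).1 : Ω) ^ 2) = ((D k (m + n) : ℤ) : Ω))
    {v : Ω} (hv : v ∈ Y) : v ^ 2 + 4 * (k : Ω) ^ 2 ≠ 0 := by
  intro h0
  have h1 := prod_one h
  rw [Finset.prod_eq_zero hv h0, mul_zero] at h1
  have h2 : D k (n + 1) = 0 := by exact_mod_cast h1.symm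
  exact (D_pos k hk (n + 1)).ne' h2

/-- a root of `k (y² - 1) = u y` -/
lemma exists_child {k : ℤ} (hk : k ≠ 0) (u : Ω) :
    ∃ y : Ω, y ≠ 0 ∧ (k : Ω) * (y ^ 2 - 1) = u * y := by
  have hk' : (k : Ω) ≠ 0 := by exact_mod_cast hk
  obtain ⟨s, hs⟩ := IsAlgClosed.exists_pow_nat_eq (u ^ 2 + 4 * (k : Ω) ^ 2) (n := 2) (by norm_num)
  have hy : (k : Ω) * (((u + s) / (2 * k)) ^ 2 - 1) = u * ((u + s) / (2 * k)) := by
    field_simp
    linear_combination hs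
  refine ⟨(u + s) / (2 * k), ?_, hy⟩
  intro h0
  rw [h0] at hy
  apply hk'
  have : (k : Ω) * (0 ^ 2 - 1) = - k := by ring
  rw [this, mul_zero] at hy
  exact neg_eq_zero.mp hy

lemma child_iff {k : ℤ} (hk : k ≠ 0) {u y : Ω} (hy0 : y ≠ 0)
    (hy : (k : Ω) * (y ^ 2 - 1) = u * y) (z : Ω) :
    (k : Ω) * (z ^ 2 - 1) = u * z ↔ z = y ∨ z = - y⁻¹ := by
  have hk' : (k : Ω) ≠ 0 := by exact_mod_cast hk
  have hu : u = k * (y - y⁻¹) := by
    field_simp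
    linear_combination - hy
  have key : (k : Ω) * (z ^ 2 - 1) - u * z = k * ((z - y) * (z + y⁻¹)) := by
    rw [hu]
    field_simp
    ring
  constructor
  · intro h
    have h1 : (k : Ω) * ((z - y) * (z + y⁻¹)) = 0 := by rw [← key, h, sub_self]
    rcases mul_eq_zero.mp h1 with h2 | h2
    · exact absurd h2 hk'
    · rcases mul_eq_zero.mp h2 with h3 | h3
      · left; exact sub_eq_zero.mp h3
      · right; exact eq_neg_of_add_eq_zero_left h3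
  · intro h
    have h1 : (z - y) * (z + y⁻¹) = 0 := by
      rcases h with h | h
      · rw [h, sub_self, zero_mul]
      · rw [h, neg_add_cancel, mul_zero]
    rw [h1, mul_zero] at key
    exact sub_eq_zero.mp key

lemma child_ne {k : ℤ} {u y : Ω} (hy0 : y ≠ 0)
    (hy : (k : Ω) * (y ^ 2 - 1) = u * y) (hu : u ^ 2 + 4 * (k : Ω) ^ 2 ≠ 0) : y ≠ - y⁻¹ := by
  intro h
  apply hu
  have h1 : y ^ 2 = -1 := by
    have : y * y = y * (- y⁻¹) := by rw [← h]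
    rw [mul_neg, mul_inv_cancel₀ hy0] at this
    rw [sq]; exact this
  rw [h1] at hy
  have h2 : (u * y) ^ 2 = 4 * (k : Ω) ^ 2 := by rw [← hy]; ring
  rw [mul_pow, h1] at h2
  linear_combination - h2

lemma A_succ {k : ℤ} (hk : k ≠ 0) {n : ℕ} (h : A k n) : A k (n + 1) := by
  classical
  have hk' : (k : Ω) ≠ 0 := by exact_mod_cast hk
  obtain ⟨Y, hY, hcard, hprod⟩ := h
  have hne : ∀ v ∈ Y, v ^ 2 + 4 * (k : Ω) ^ 2 ≠ 0 := fun v hv => ne_of_prod hk hprod hv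
  choose c hc0 hc using fun u : Ω => exists_child hk u
  let Ch : Ω → Finset Ω := fun u => {c u, - (c u)⁻¹}
  have hCh : ∀ u z : Ω, z ∈ Ch u ↔ (k : Ω) * (z ^ 2 - 1) = u * z := by
    intro u z
    rw [child_iff hk (hc0 u) (hc u) z]
    simp [Ch]
  have hdis : ∀ u ∈ Y, ∀ u' ∈ Y, u ≠ u' → Disjoint (Ch u) (Ch u') := by
    intro u _ u' _ huu
    rw [Finset.disjoint_left]
    intro z hz hz'
    rw [hCh] at hz hz'
    apply huu
    have hz0 : z ≠ 0 := by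
      rintro rfl
      apply hk'
      have : (k : Ω) * (0 ^ 2 - 1) = - k := by ring
      rw [this, mul_zero] at hz
      exact neg_eq_zero.mp hz
    exact mul_right_cancel₀ hz0 (hz.symm.trans hz')
  have hc2 : ∀ u ∈ Y, (c u) ≠ - (c u)⁻¹ := fun u hu => child_ne (hc0 u) (hc u) (hne u hu)
  refine ⟨Y.biUnion Ch, ?_, ?_, ?_⟩
  · intro z
    simp only [Finset.mem_biUnion, hCh, hY, Lev]
  · rw [Finset.card_biUnion (fun u hu u' hu' huu => hdis u hu u' hu' huu)]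
    have : ∀ u ∈ Y, (Ch u).card = 2 := fun u hu => Finset.card_pair (hc2 u hu)
    rw [Finset.sum_congr rfl this, Finset.sum_const, hcard, smul_eq_mul, pow_succ]
  · intro m
    have hp2 : ∀ u ∈ Y, (k : Ω) ^ 2 * ∏ v ∈ Ch u,
        (((PQ k m).2 : Ω) ^ 2 * v ^ 2 + ((PQ k m).1 : Ω) ^ 2) =
        (((PQ k (m + 1)).2 : Ω) ^ 2 * u ^ 2 + ((PQ k (m + 1)).1 : Ω) ^ 2) := by
      intro u hu
      have e1 : ∏ v ∈ Ch u, (((PQ k m).2 : Ω) ^ 2 * v ^ 2 + ((PQ k m).1 : Ω) ^ 2) =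
          (((PQ k m).2 : Ω) ^ 2 * (c u) ^ 2 + ((PQ k m).1 : Ω) ^ 2) *
          (((PQ k m).2 : Ω) ^ 2 * (- (c u)⁻¹) ^ 2 + ((PQ k m).1 : Ω) ^ 2) :=
        Finset.prod_pair (hc2 u hu)
      rw [e1, PQ_fst_succ, PQ_snd_succ]
      push_cast
      have hcu := hc0 u
      have hu2 : u = k * (c u - (c u)⁻¹) := by
        have := hc u
        field_simp
        linear_combination - this
      have hu3 : u ^ 2 = k ^ 2 * ((c u) ^ 2 + ((c u)⁻¹) ^ 2 - 2) := by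
        have h11 : u ^ 2 = (k * (c u - (c u)⁻¹)) ^ 2 := congrArg (fun t => t ^ 2) hu2
        rw [h11]
        have : (c u) * (c u)⁻¹ = 1 := mul_inv_cancel₀ hcu
        linear_combination (-2 * (k : Ω) ^ 2) * this
      rw [hu3]
      have h5 : (c u) * (c u)⁻¹ = 1 := mul_inv_cancel₀ hcu
      have h6 : (c u) ^ 2 * ((c u)⁻¹) ^ 2 = 1 := by rw [← mul_pow, h5, one_pow]
      linear_combination ((k : Ω) ^ 2 * ((PQ k m).2 : Ω) ^ 4) * h6
    rw [Finset.prod_biUnion (fun u hu u' hu' huu => hdis u hu u' hu' huu)]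
    have e2 : (k : Ω) ^ (2 ^ (n + 1 + 1) - 2) = (k : Ω) ^ (2 ^ (n + 1) - 2) * ∏ u ∈ Y, (k : Ω) ^ 2 := by
      rw [Finset.prod_const, hcard, ← pow_mul, ← pow_add]
      congr 1
      have h7 : 2 ≤ 2 ^ (n + 1) := by
        rw [pow_succ]
        have : 0 < 2 ^ n := by positivity
        omega
      have h8 : 2 ^ (n + 1 + 1) = 2 ^ (n + 1) * 2 := pow_succ 2 (n + 1)
      have h9 : 2 ^ (n + 1) = 2 ^ n * 2 := pow_succ 2 n
      omega
    rw [e2, mul_assoc, ← Finset.prod_mul_distrib, Finset.prod_congr rfl hp2, hprod (m + 1)]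
    congr 2
    ring

lemma A_all {k : ℤ} (hk : k ≠ 0) (n : ℕ) : A k n := by
  induction n with
  | zero =>
    refine ⟨{1}, ?_, by simp, ?_⟩
    · intro y
      simp [Lev]
    · intro m
      simp [D]
      ring
  | succ n ih => exact A_succ hk ih

theorem t_PRD : S_PRD := by
  intro k hk n
  obtain ⟨Y, hY, -, hprod⟩ := A_all hk n
  refine ⟨?_, ?_, ?_⟩
  · have : {y : Ω | Lev k n y} = (Y : Set Ω) := by
      ext y
      simp [hY]
    rw [this]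
    exact Y.finite_toSet
  · intro y hy
    exact ne_of_prod hk hprod ((hY y).mpr hy)
  · intro Y' hY'
    have : Y' = Y := by
      ext y
      rw [hY', hY]
    rw [this]
    exact prod_one hprod

end Run7.h173.JM
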